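import Pool.Agent.Y811.PC.Stm4

/-!
# Mass of the quadratic differential near the cycle (S_ANN), project PC of helper811
-/

set_option autoImplicit false

namespace Pool.Agent.Y67.PC

open Complex Metric Set Filter Topology MeasureTheory Pool.Agent.Y811.PC

theorem taylor (d : ℕ) (b : ℂ) : ∃ K : ℝ, 0 ≤ K ∧ ∀ w : ℂ, ‖w - b‖ ≤ 1 →
    ‖w ^ d - b ^ d - (d : ℂ) * b ^ (d - 1) * (w - b)‖ ≤ K * ‖w - b‖ ^ 2 := by
  induction d with
  | zero =>
    refine ⟨0, le_rfl, fun w _ => ?_⟩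
    simp
  | succ d ih =>
    obtain ⟨K, hK, h⟩ := ih
    refine ⟨(‖b‖ + 1) * K + ‖(d : ℂ) * b ^ (d - 1)‖, by positivity, fun w hw => ?_⟩
    have e : w ^ (d + 1) - b ^ (d + 1) - ((d + 1 : ℕ) : ℂ) * b ^ (d + 1 - 1) * (w - b) =
        w * (w ^ d - b ^ d - (d : ℂ) * b ^ (d - 1) * (w - b)) +
          (d : ℂ) * b ^ (d - 1) * (w - b) ^ 2 := by
      rcases Nat.eq_zero_or_pos d with rfl | hd
      · simp
      · obtain ⟨d', rfl⟩ : ∃ d', d = d' + 1 := ⟨d - 1, by omega⟩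
        simp only [Nat.add_sub_cancel]
        push_cast
        ring
    rw [e]
    have h1 : ‖w‖ ≤ ‖b‖ + 1 := by
      calc ‖w‖ = ‖b + (w - b)‖ := by rw [add_sub_cancel]
        _ ≤ ‖b‖ + ‖w - b‖ := norm_add_le _ _
        _ ≤ ‖b‖ + 1 := by linarith
    refine (norm_add_le _ _).trans ?_
    rw [norm_mul, norm_mul _ ((w - b) ^ 2), norm_pow, add_mul]
    refine add_le_add ?_ le_rfl
    calc ‖w‖ * ‖w ^ d - b ^ d - (d : ℂ) * b ^ (d - 1) * (w - b)‖
        ≤ (‖b‖ + 1) * (K * ‖w - b‖ ^ 2) :=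
          mul_le_mul h1 (h w hw) (norm_nonneg _) (by positivity)
      _ = (‖b‖ + 1) * K * ‖w - b‖ ^ 2 := by ring

theorem vol_ann (b : ℂ) (ρ s : ℝ) (hρ : 0 ≤ ρ) (hs : 0 ≤ s) (hs1 : s ≤ 1) :
    volume (closedBall b ρ \ ball b (ρ * s)) ≤
      ENNReal.ofReal (2 * Real.pi * (1 - s) * ρ ^ 2) := by
  have hsub : ball b (ρ * s) ⊆ closedBall b ρ := by
    refine ball_subset_closedBall.trans (closedBall_subset_closedBall ?_)
    nlinarith
  rw [measure_sdiff hsub measurableSet_ball.nullMeasurableSet measure_ball_lt_top.ne,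
    Complex.volume_ball, Complex.volume_closedBall]
  have hpi : (NNReal.pi : ENNReal) = ENNReal.ofReal Real.pi := by
    rw [ENNReal.ofReal, Real.toNNReal_of_nonneg Real.pi_pos.le]
    rfl
  rw [hpi, ← ENNReal.ofReal_pow hρ, ← ENNReal.ofReal_pow (by positivity),
    ← ENNReal.ofReal_mul (by positivity), ← ENNReal.ofReal_mul (by positivity),
    ← ENNReal.ofReal_sub _ (by positivity)]
  apply ENNReal.ofReal_le_ofReal
  have h1 := Real.pi_pos
  have h2 : ρ ^ 2 * Real.pi - (ρ * s) ^ 2 * Real.pi = Real.pi * ρ ^ 2 * ((1 - s) * (1 + s)) := by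
    ring
  rw [h2]
  have h3 : (1 - s) * (1 + s) ≤ (1 - s) * 2 := mul_le_mul_of_nonneg_left (by linarith) (by linarith)
  have h4 : 0 ≤ Real.pi * ρ ^ 2 := by positivity
  nlinarith [mul_le_mul_of_nonneg_left h3 h4]

theorem ann_mass (g f : ℂ → ℂ) (b b' : ℂ) (l t K ρ₀ C₂ : ℝ) (hl : 0 < l) (ht : 0 < t)
    (hρ₀ : 0 < ρ₀) (hK : 0 ≤ K) (hC : 0 ≤ C₂)
    (hg : ∀ w, 0 < ‖w - b‖ → ‖w - b‖ < ρ₀ → ‖g w‖ ≤ K / ‖w - b‖ ^ 2)
    (hf : ∀ w, ‖w - b‖ ≤ 1 → ‖f w - b'‖ ≤ l * ‖w - b‖ + C₂ * ‖w - b‖ ^ 2) :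
    ∃ C r₀ : ℝ, 0 ≤ C ∧ 0 < r₀ ∧ ∀ r : ℝ, 0 < r → r < r₀ →
      ∫⁻ w in {w : ℂ | ‖w - b‖ < r * t ∧ r * (t * l) ≤ ‖f w - b'‖}, ENNReal.ofReal ‖g w‖ ≤
        ENNReal.ofReal (C * r) := by
  set C₁ : ℝ := C₂ * t / l with hC₁
  have hC₁0 : 0 ≤ C₁ := by positivity
  refine ⟨4 * K * (2 * Real.pi * C₁), min (1 / t) (min (ρ₀ / t) (1 / (2 * (C₁ + 1)))),
    by positivity, by positivity, fun r hr hr0 => ?_⟩
  have hr1 : r * t < 1 := by
    have := hr0.trans_le (min_le_left _ _)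
    rwa [lt_div_iff₀ ht] at this
  have hr2 : r * t < ρ₀ := by
    have := hr0.trans_le ((min_le_right _ _).trans (min_le_left _ _))
    rwa [lt_div_iff₀ ht] at this
  have hr3 : C₁ * r ≤ 1 / 2 := by
    have := hr0.trans_le ((min_le_right _ _).trans (min_le_right _ _))
    rw [lt_div_iff₀ (by positivity)] at this
    nlinarith
  set ρ : ℝ := r * t with hρ
  have hρ0 : 0 < ρ := by positivity
  have hsub : {w : ℂ | ‖w - b‖ < r * t ∧ r * (t * l) ≤ ‖f w - b'‖} ⊆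
      closedBall b ρ \ ball b (ρ * (1 - C₁ * r)) := by
    rintro w ⟨h1, h2⟩
    refine ⟨?_, ?_⟩
    · rw [mem_closedBall, dist_eq_norm]
      exact h1.le
    · rw [mem_ball, dist_eq_norm, not_lt]
      by_contra hc
      push Not at hc
      have h3 := hf w (h1.le.trans hr1.le)
      have h4 : l * ‖w - b‖ + C₂ * ‖w - b‖ ^ 2 ≤ ‖w - b‖ * (l + C₂ * ρ) := by
        have : C₂ * ‖w - b‖ ^ 2 ≤ C₂ * (‖w - b‖ * ρ) := by
          refine mul_le_mul_of_nonneg_left ?_ hC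
          rw [pow_two]
          exact mul_le_mul_of_nonneg_left h1.le (norm_nonneg _)
        linarith
      have h5 : 0 < l + C₂ * ρ := by positivity
      have h6 : ‖w - b‖ * (l + C₂ * ρ) < ρ * (1 - C₁ * r) * (l + C₂ * ρ) :=
        mul_lt_mul_of_pos_right hc h5
      have h7 : C₂ * ρ = C₁ * l * r := by
        rw [hC₁, hρ]
        field_simp
      have h8 : ρ * (1 - C₁ * r) * (l + C₂ * ρ) = ρ * l - ρ * l * (C₁ * r) ^ 2 := by
        rw [h7]
        ring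
      have h9 : 0 ≤ ρ * l * (C₁ * r) ^ 2 := by positivity
      have h10 : r * (t * l) = ρ * l := by rw [hρ]; ring
      linarith
  have hm : MeasurableSet (closedBall b ρ \ ball b (ρ * (1 - C₁ * r))) :=
    measurableSet_closedBall.diff measurableSet_ball
  refine (lintegral_mono_set hsub).trans ?_
  have hb : ∀ w ∈ closedBall b ρ \ ball b (ρ * (1 - C₁ * r)),
      ENNReal.ofReal ‖g w‖ ≤ ENNReal.ofReal (4 * K / ρ ^ 2) := by
    rintro w ⟨h1, h2⟩
    rw [mem_closedBall, dist_eq_norm] at h1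
    rw [mem_ball, dist_eq_norm, not_lt] at h2
    have h3 : ρ / 2 ≤ ‖w - b‖ := by nlinarith
    have h4 : 0 < ‖w - b‖ := by linarith
    apply ENNReal.ofReal_le_ofReal
    refine (hg w h4 (h1.trans_lt hr2)).trans ?_
    rw [div_le_div_iff₀ (by positivity) (by positivity)]
    have h5 : (ρ / 2) ^ 2 ≤ ‖w - b‖ ^ 2 := pow_le_pow_left₀ (by positivity) h3 2
    nlinarith
  refine (setLIntegral_mono' hm hb).trans ?_
  rw [setLIntegral_const]
  refine (mul_le_mul_right (vol_ann b ρ (1 - C₁ * r) hρ0.le (by linarith) (by nlinarith)) _).trans ?_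
  rw [← ENNReal.ofReal_mul (by positivity)]
  apply ENNReal.ofReal_le_ofReal
  apply le_of_eq
  have : ρ ≠ 0 := hρ0.ne'
  field_simp
  ring

theorem tj_pos {d m : ℕ} {c : ℂ} {b β : ℕ → ℂ} {A : ℂ} (hc : Cyc d m c b β A) (j : ℕ) :
    0 < tj d b j := by
  unfold tj
  refine Finset.prod_pos fun i _ => ?_
  have h1 : (d : ℂ) ≠ 0 := by
    have := hc.hd
    exact_mod_cast (by omega : d ≠ 0)
  rw [norm_pos_iff]
  exact mul_ne_zero h1 (pow_ne_zero _ (hc.ne i))

/-- the local bound at a point of the cycle -/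
theorem local_bd (m : ℕ) (b β : ℕ → ℂ) (A : ℂ) (hinj : ∀ i j, i < m → j < m → b i = b j → i = j)
    (j : ℕ) (hj : j < m) : ∃ K ρ₀ : ℝ, 0 ≤ K ∧ 0 < ρ₀ ∧ ∀ w, 0 < ‖w - b j‖ → ‖w - b j‖ < ρ₀ →
      ‖gg m b β A w‖ ≤ K / ‖w - b j‖ ^ 2 := by
  have h1 : ∀ i ∈ Finset.range m, ∃ K : ℝ, 0 ≤ K ∧ ∀ᶠ w in 𝓝 (b j), w ≠ b j →
      ‖A / (w - b i) ^ 2 + β i / (w - b i)‖ ≤ K / ‖w - b j‖ ^ 2 := by
    intro i hi
    rw [Finset.mem_range] at hi
    have hx1 : ∀ᶠ w in 𝓝 (b j), ‖w - b j‖ < 1 := by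
      have := Metric.ball_mem_nhds (b j) one_pos
      filter_upwards [this] with w hw
      rwa [mem_ball, dist_eq_norm] at hw
    by_cases hij : i = j
    · subst hij
      refine ⟨‖A‖ + ‖β i‖, by positivity, ?_⟩
      filter_upwards [hx1] with w hw hne
      have h0 : 0 < ‖w - b i‖ := norm_pos_iff.2 (sub_ne_zero.2 hne)
      refine (norm_add_le _ _).trans ?_
      rw [norm_div, norm_div, norm_pow, add_div]
      refine add_le_add le_rfl ?_
      refine div_le_div_of_nonneg_left (norm_nonneg _) (by positivity) ?_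
      nlinarith
    · have hne : b j - b i ≠ 0 := by
        intro h
        exact hij (hinj i j hi hj (sub_eq_zero.1 h).symm)
      have hcont : ContinuousAt (fun w => A / (w - b i) ^ 2 + β i / (w - b i)) (b j) := by
        refine ContinuousAt.add (ContinuousAt.div continuousAt_const ?_ (pow_ne_zero _ hne))
          (ContinuousAt.div continuousAt_const ?_ hne)
        · fun_prop
        · fun_prop
      have hev := hcont.norm.eventually_lt_const (lt_add_one _)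
      refine ⟨‖A / (b j - b i) ^ 2 + β i / (b j - b i)‖ + 1, by positivity, ?_⟩
      filter_upwards [hev, hx1] with w hw hw1 hne'
      have h0 : 0 < ‖w - b j‖ := norm_pos_iff.2 (sub_ne_zero.2 hne')
      refine hw.le.trans ?_
      rw [le_div_iff₀ (by positivity)]
      have h2 : ‖w - b j‖ ^ 2 ≤ 1 := pow_le_one₀ h0.le hw1.le
      exact mul_le_of_le_one_right (by positivity) h2
  choose! K hK0 hK using h1
  have h2 : ∀ᶠ w in 𝓝 (b j), ∀ i ∈ Finset.range m, w ≠ b j →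
      ‖A / (w - b i) ^ 2 + β i / (w - b i)‖ ≤ K i / ‖w - b j‖ ^ 2 :=
    (Filter.eventually_all_finset _).2 hK
  obtain ⟨ρ₀, hρ₀, h3⟩ := Metric.eventually_nhds_iff.1 h2
  refine ⟨∑ i ∈ Finset.range m, K i, ρ₀, Finset.sum_nonneg hK0, hρ₀, fun w hw0 hw => ?_⟩
  have hne : w ≠ b j := by
    intro h
    rw [h, sub_self, norm_zero] at hw0
    exact lt_irrefl _ hw0
  unfold gg
  rw [Finset.sum_div]
  refine (norm_sum_le _ _).trans (Finset.sum_le_sum fun i hi => ?_)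
  exact h3 (by rwa [dist_eq_norm]) i hi hne

/-- finite mass away from the poles -/
theorem fin_mass {d m : ℕ} {c : ℂ} {b β : ℕ → ℂ} {A : ℂ} (h : S_DEC) (hc : Cyc d m c b β A)
    (r : ℝ) (hr : 0 < r) : ∫⁻ z in VV d m b r, ENNReal.ofReal ‖gg m b β A z‖ < ⊤ := by
  obtain ⟨C, R, hC, hR, hCR⟩ := h d m c b β A hc
  set M : ℝ := ∑ j ∈ Finset.range m, (‖A‖ / (r * tj d b j) ^ 2 + ‖β j‖ / (r * tj d b j)) with hM
  have hM0 : 0 ≤ M := Finset.sum_nonneg fun j _ => by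
    have := tj_pos hc j
    positivity
  have hcl : MeasurableSet (VV d m b r) := by
    have : VV d m b r = ⋂ j, ⋂ (_ : j < m), {z : ℂ | r * tj d b j ≤ ‖z - b j‖} := by
      ext z
      simp only [VV, mem_ofPred_eq, mem_iInter]
    rw [this]
    refine (isClosed_iInter fun j => isClosed_iInter fun _ => ?_).measurableSet
    exact isClosed_le continuous_const (by fun_prop)
  have hb : ∀ z ∈ VV d m b r, ENNReal.ofReal ‖gg m b β A z‖ ≤
      ENNReal.ofReal ((M * (1 + R) ^ 3 + 8 * C) * (1 + ‖z‖) ^ (-(3 : ℝ))) := by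
    intro z hz
    apply ENNReal.ofReal_le_ofReal
    have h0 : 0 < 1 + ‖z‖ := by positivity
    rw [Real.rpow_neg h0.le, ← div_eq_mul_inv, le_div_iff₀ (by positivity)]
    have e3 : (1 + ‖z‖) ^ (3 : ℝ) = (1 + ‖z‖) ^ 3 := by
      rw [← Real.rpow_natCast]
      norm_num
    rw [e3]
    by_cases hz1 : R ≤ ‖z‖
    · have h1 := hCR z hz1
      have h2 : 0 < ‖z‖ := by linarith
      have h3 : (1 + ‖z‖) ^ 3 ≤ (2 * ‖z‖) ^ 3 := pow_le_pow_left₀ h0.le (by linarith) 3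
      calc ‖gg m b β A z‖ * (1 + ‖z‖) ^ 3 ≤ C / ‖z‖ ^ 3 * (2 * ‖z‖) ^ 3 :=
            mul_le_mul h1 h3 (by positivity) (by positivity)
        _ = 8 * C := by
            field_simp
            ring
        _ ≤ M * (1 + R) ^ 3 + 8 * C := by
            have : 0 ≤ M * (1 + R) ^ 3 := by positivity
            linarith
    · push Not at hz1
      have h1 : ‖gg m b β A z‖ ≤ M := by
        unfold gg
        refine (norm_sum_le _ _).trans (Finset.sum_le_sum fun j hj => ?_)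
        have h2 := hz j (Finset.mem_range.1 hj)
        have h3 := tj_pos hc j
        have h4 : 0 < r * tj d b j := by positivity
        refine (norm_add_le _ _).trans ?_
        rw [norm_div, norm_div, norm_pow]
        exact add_le_add
          (div_le_div_of_nonneg_left (norm_nonneg _) (by positivity)
            (pow_le_pow_left₀ h4.le h2 2))
          (div_le_div_of_nonneg_left (norm_nonneg _) h4 h2)
      have h2 : (1 + ‖z‖) ^ 3 ≤ (1 + R) ^ 3 := pow_le_pow_left₀ h0.le (by linarith) 3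
      calc ‖gg m b β A z‖ * (1 + ‖z‖) ^ 3 ≤ M * (1 + R) ^ 3 :=
            mul_le_mul h1 h2 (by positivity) hM0
        _ ≤ M * (1 + R) ^ 3 + 8 * C := by linarith
  refine (setLIntegral_mono' hcl hb).trans_lt ?_
  refine (setLIntegral_le_lintegral _ _).trans_lt ?_
  have hi : Integrable (fun z : ℂ => (M * (1 + R) ^ 3 + 8 * C) * (1 + ‖z‖) ^ (-(3 : ℝ))) :=
    (integrable_one_add_norm (by
      rw [Complex.finrank_real_complex]
      norm_num)).const_mul _
  exact hi.lintegral_lt_top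

/-- the mass on the preimage of `VV` is at most the mass on `VV` plus `O(r)` (with parentheses) -/
def S_ANNp : Prop := ∀ (d m : ℕ) (c : ℂ) (b β : ℕ → ℂ) (A : ℂ), Cyc d m c b β A →
  ∃ C r₀ : ℝ, 0 < C ∧ 0 < r₀ ∧ ∀ r : ℝ, 0 < r → r < r₀ →
    ∫⁻ z in VV d m b r, ENNReal.ofReal ‖gg m b β A z‖ < ⊤ ∧
    ∫⁻ w in {w : ℂ | w ^ d + c ∈ VV d m b r}, ENNReal.ofReal ‖gg m b β A w‖ ≤
      (∫⁻ z in VV d m b r, ENNReal.ofReal ‖gg m b β A z‖) + ENNReal.ofReal (C * r)

/-- **PC-ANN**, the strong form. -/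
theorem t_ANNp (h : S_DEC) : S_ANNp := by
  intro d m c b β A hc
  have hd0 : (d : ℂ) ≠ 0 := by
    have := hc.hd
    exact_mod_cast (by omega : d ≠ 0)
  have hj : ∀ j ∈ Finset.range m, ∃ C r₀ : ℝ, 0 ≤ C ∧ 0 < r₀ ∧ ∀ r : ℝ, 0 < r → r < r₀ →
      ∫⁻ w in {w : ℂ | ‖w - b j‖ < r * tj d b j ∧
        r * (tj d b j * ‖(d : ℂ) * b j ^ (d - 1)‖) ≤ ‖(w ^ d + c) - b (j + 1)‖},
          ENNReal.ofReal ‖gg m b β A w‖ ≤ ENNReal.ofReal (C * r) := by
    intro j hj
    obtain ⟨K, ρ₀, hK, hρ₀, hg⟩ := local_bd m b β A hc.inj j (Finset.mem_range.1 hj)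
    obtain ⟨C₂, hC₂, ht⟩ := taylor d (b j)
    refine ann_mass (gg m b β A) (fun w => w ^ d + c) (b j) (b (j + 1))
      ‖(d : ℂ) * b j ^ (d - 1)‖ (tj d b j) K ρ₀ C₂
      (norm_pos_iff.2 (mul_ne_zero hd0 (pow_ne_zero _ (hc.ne j)))) (tj_pos hc j) hρ₀ hK hC₂ hg ?_
    intro w hw
    have e : w ^ d + c - b (j + 1) = (w ^ d - b j ^ d - (d : ℂ) * b j ^ (d - 1) * (w - b j)) +
        (d : ℂ) * b j ^ (d - 1) * (w - b j) := by
      rw [hc.step]
      ring
    change ‖w ^ d + c - b (j + 1)‖ ≤ _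
    rw [e]
    refine (norm_add_le _ _).trans ?_
    rw [norm_mul ((d : ℂ) * b j ^ (d - 1))]
    have h1 := ht w hw
    linarith
  choose! C r₀ hC hr₀ hmass using hj
  obtain ⟨r₁, hr₁, hr₁'⟩ : ∃ r₁ : ℝ, 0 < r₁ ∧ ∀ j ∈ Finset.range m, r₁ ≤ r₀ j := by
    have hne : (Finset.range m).Nonempty := ⟨0, Finset.mem_range.2 hc.hm⟩
    refine ⟨(Finset.range m).inf' hne r₀, ?_, fun j hj => Finset.inf'_le _ hj⟩
    rw [Finset.lt_inf'_iff]
    exact hr₀
  refine ⟨∑ j ∈ Finset.range m, C j + 1, r₁, ?_, hr₁, fun r hr hrr => ⟨fin_mass h hc r hr, ?_⟩⟩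
  · have := Finset.sum_nonneg hC
    linarith
  have hsub : {w : ℂ | w ^ d + c ∈ VV d m b r} ⊆ VV d m b r ∪ ⋃ j ∈ Finset.range m,
      {w : ℂ | ‖w - b j‖ < r * tj d b j ∧
        r * (tj d b j * ‖(d : ℂ) * b j ^ (d - 1)‖) ≤ ‖(w ^ d + c) - b (j + 1)‖} := by
    intro w hw
    by_cases hwV : w ∈ VV d m b r
    · exact Or.inl hwV
    · right
      have h1 : ∃ j, j < m ∧ ‖w - b j‖ < r * tj d b j := by
        by_contra hcon
        push Not at hcon
        exact hwV hcon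
      obtain ⟨j, hjm, hj2⟩ := h1
      rw [mem_iUnion₂]
      refine ⟨j, Finset.mem_range.2 hjm, hj2, ?_⟩
      have h3 : tj d b j * ‖(d : ℂ) * b j ^ (d - 1)‖ = tj d b (j + 1) := by
        unfold tj
        rw [Finset.prod_range_succ]
      rw [h3]
      by_cases hjm' : j + 1 < m
      · exact hw (j + 1) hjm'
      · have h4 : j + 1 = m := by omega
        have h5 : b m = b 0 := by
          have := hc.per 0
          rwa [zero_add] at this
        have h6 : tj d b m = tj d b 0 := by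
          unfold tj
          rw [Finset.prod_range_zero, ← hc.neutral, norm_prod]
        rw [h4, h5, h6]
        exact hw 0 hc.hm
  refine (lintegral_mono_set hsub).trans ((lintegral_union_le _ _ _).trans ?_)
  refine add_le_add (le_refl _) ?_
  have h2 : ∫⁻ w in ⋃ j ∈ Finset.range m,
      {w : ℂ | ‖w - b j‖ < r * tj d b j ∧
        r * (tj d b j * ‖(d : ℂ) * b j ^ (d - 1)‖) ≤ ‖(w ^ d + c) - b (j + 1)‖},
          ENNReal.ofReal ‖gg m b β A w‖ ≤ ∑ j ∈ Finset.range m, ∫⁻ w in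
      {w : ℂ | ‖w - b j‖ < r * tj d b j ∧
        r * (tj d b j * ‖(d : ℂ) * b j ^ (d - 1)‖) ≤ ‖(w ^ d + c) - b (j + 1)‖},
          ENNReal.ofReal ‖gg m b β A w‖ := by
    refine Finset.induction_on (Finset.range m) ?_ ?_
    · simp
    · intro j s hjs ih
      rw [Finset.set_biUnion_insert, Finset.sum_insert hjs]
      exact (lintegral_union_le _ _ _).trans (add_le_add (le_refl _) ih)
  refine h2.trans ?_
  refine (Finset.sum_le_sum fun j hj => hmass j hj r hr (hrr.trans_le (hr₁' j hj))).trans ?_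
  rw [← ENNReal.ofReal_sum_of_nonneg (fun j hj => mul_nonneg (hC j hj) hr.le)]
  apply ENNReal.ofReal_le_ofReal
  rw [← Finset.sum_mul]
  nlinarith

theorem meas_VV (d m : ℕ) (b : ℕ → ℂ) (r : ℝ) : MeasurableSet (VV d m b r) := by
  have : VV d m b r = ⋂ j, ⋂ (_ : j < m), {z : ℂ | r * tj d b j ≤ ‖z - b j‖} := by
    ext z
    simp only [VV, mem_ofPred_eq, mem_iInter]
  rw [this]
  refine (isClosed_iInter fun j => isClosed_iInter fun _ => ?_).measurableSet
  exact isClosed_le continuous_const (by fun_prop)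

theorem one_le_vol (d m : ℕ) (b : ℕ → ℂ) (r : ℝ) : 1 ≤ volume (VV d m b r) := by
  set R : ℝ := ∑ j ∈ Finset.range m, (‖b j‖ + |r * tj d b j|) with hR
  have hsub : ball ((R + 1 : ℝ) : ℂ) 1 ⊆ VV d m b r := by
    intro z hz j hj
    rw [mem_ball, dist_eq_norm] at hz
    have h1 : ‖b j‖ + |r * tj d b j| ≤ R :=
      Finset.single_le_sum (f := fun j => ‖b j‖ + |r * tj d b j|)
        (fun i _ => by positivity) (Finset.mem_range.2 hj)
    have hR0 : 0 ≤ R := Finset.sum_nonneg fun i _ => by positivity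
    have h2 : ‖((R + 1 : ℝ) : ℂ)‖ = R + 1 := by
      rw [Complex.norm_real, Real.norm_of_nonneg (by linarith)]
    have h3 : ‖((R + 1 : ℝ) : ℂ)‖ ≤ ‖z - b j‖ + ‖b j‖ + ‖z - ((R + 1 : ℝ) : ℂ)‖ := by
      have e : ((R + 1 : ℝ) : ℂ) = (z - b j) + b j - (z - ((R + 1 : ℝ) : ℂ)) := by ring
      calc ‖((R + 1 : ℝ) : ℂ)‖ = ‖(z - b j) + b j - (z - ((R + 1 : ℝ) : ℂ))‖ := by rw [← e]
        _ ≤ ‖(z - b j) + b j‖ + ‖z - ((R + 1 : ℝ) : ℂ)‖ := norm_sub_le _ _
        _ ≤ _ := add_le_add (norm_add_le _ _) (le_refl _)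
    have h4 := le_abs_self (r * tj d b j)
    linarith
  refine le_trans ?_ (measure_mono hsub)
  rw [Complex.volume_ball, ENNReal.ofReal_one, one_pow, one_mul]
  have h5 : (1 : NNReal) ≤ NNReal.pi := by
    have h6 : (1 : ℝ) ≤ Real.pi := by linarith [Real.pi_gt_three]
    exact_mod_cast h6
  exact_mod_cast h5

/-- **PC-ANN**, the literal form of the statement. -/
theorem t_ANN (h : S_DEC) : S_ANN := by
  intro d m c b β A hc
  obtain ⟨C, r₀, hC, hr₀, H⟩ := t_ANNp h d m c b β A hc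
  refine ⟨C, r₀, hC, hr₀, fun r hr hr1 => ?_⟩
  obtain ⟨h1, h2⟩ := H r hr hr1
  have h3 : (∫⁻ z in VV d m b r, ENNReal.ofReal ‖gg m b β A z‖) + ENNReal.ofReal (C * r) ≤
      ∫⁻ z in VV d m b r, (ENNReal.ofReal ‖gg m b β A z‖ + ENNReal.ofReal (C * r)) := by
    rw [lintegral_add_right _ measurable_const, setLIntegral_const]
    refine add_le_add (le_refl _) ?_
    calc ENNReal.ofReal (C * r) = ENNReal.ofReal (C * r) * 1 := (mul_one _).symm
      _ ≤ ENNReal.ofReal (C * r) * volume (VV d m b r) := by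
          gcongr
          exact one_le_vol d m b r
  have h4 := h2.trans h3
  refine ⟨?_, h4⟩
  exact h1

end Pool.Agent.Y67.PC
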